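import Pool.Agent.Y854.PS.Total
import Pool.Agent.Y854.PS.FamA

open Filter

namespace Pool.Agent.Results.MP_31d0eb_nt.MeanAlongMonomials

/-- `π(x, H)`: the number of primes `p` with `x < p ≤ x + H` -/
noncomputable def primesIn (x H : ℝ) : ℕ := ((Finset.Ioc ⌊x⌋₊ ⌊x + H⌋₊).filter Nat.Prime).card

/-- For every real `c > 1` (for instance `c = 2`) there is a set `E` of real numbers of Hausdorff
dimension less than one such that for every `α > 0` outside `E` the following holds. Let `ψ` be any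
function tending to infinity and `δ > 0`. Then for all large `N` and ALL nondecreasing sequences of
lengths `H 1 ≤ … ≤ H N` with `max 1 (ψ n) ≤ H n ≤ α N ^ c` the mean value over `n ≤ N` of
`π(x, H) log x / H` at the starting points `x = α n ^ c`, `H = H n`, differs from `1` by at
most `δ`. -/
theorem result : ∀ c : ℝ, 1 < c → ∃ E : Set ℝ, dimH E < 1 ∧ ∀ α : ℝ, 0 < α → α ∉ E →
    ∀ ψ : ℕ → ℝ, Tendsto ψ atTop atTop → ∀ δ : ℝ, 0 < δ → ∃ N₀ : ℕ, ∀ N : ℕ, N₀ ≤ N →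
      ∀ H : ℕ → ℝ, MonotoneOn H (Set.Icc 1 N) →
        (∀ n : ℕ, 1 ≤ n → n ≤ N → 1 ≤ H n ∧ ψ n ≤ H n ∧ H n ≤ α * (N : ℝ) ^ c) →
        |(∑ n ∈ Finset.Icc 1 N,
            (primesIn (α * (n : ℝ) ^ c) (H n) : ℝ) * Real.log (α * (n : ℝ) ^ c) / H n) / N - 1| ≤ δ := by
  intro c hc
  obtain ⟨E, hE, hsamp⟩ := Pool.Agent.Y854.PS.samp_amp c hc
  refine ⟨E, hE, fun α hα hαE ψ hψ δ hδ => ?_⟩
  obtain ⟨κ, hκ, hS⟩ := hsamp α hα hαE
  obtain ⟨N₀, h⟩ := Pool.Agent.Y854.PS.total α c (α ^ (-(1 / c))) κ hα hc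
    (Real.rpow_pos_of_pos hα _) hκ hS ψ hψ δ hδ
  refine ⟨max N₀ 1, fun N hN H hmono hH => ?_⟩
  have hN1 : 1 ≤ N := (le_max_right _ _).trans hN
  have hNpos : (0 : ℝ) < N := by exact_mod_cast hN1
  have h1 := h N ((le_max_left _ _).trans hN) H hmono (by
    intro n hn
    rw [Finset.mem_Icc] at hn
    exact hH n hn.1 hn.2)
  rw [Finset.sum_sub_distrib, Finset.sum_const, Nat.card_Icc, Nat.add_sub_cancel, nsmul_eq_mul,
    mul_one] at h1
  have e : ∑ n ∈ Finset.Icc 1 N,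
      (primesIn (α * (n : ℝ) ^ c) (H n) : ℝ) * Real.log (α * (n : ℝ) ^ c) / H n =
      ∑ n ∈ Finset.Icc 1 N, Pool.Agent.Y854.PS.ff (Pool.Agent.Y854.PS.xs α c n) (H n) := rfl
  rw [e, div_sub_one hNpos.ne', abs_div, abs_of_pos hNpos, div_le_iff₀ hNpos]
  exact h1

end Pool.Agent.Results.MP_31d0eb_nt.MeanAlongMonomials
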