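import Pool.Agent.Y854.ST.Fin

open Filter Topology

namespace Pool.Agent.Results.MP_31d0eb_nt.StatisticsAlongMonomials

/-- `π(x, H) log x / H`, where `π(x, H)` is the number of primes `p` with `x < p ≤ x + H` -/
noncomputable def density (x H : ℝ) : ℝ :=
  (((Finset.Ioc ⌊x⌋₊ ⌊x + H⌋₊).filter Nat.Prime).card : ℝ) * Real.log x / H

/-- For every real `c > 1` (for instance `c = 2`) there is a set `E` of real numbers of Hausdorff
dimension less than one such that for every `α > 0` outside `E` the following holds. For all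
`θ_1, …, θ_k ∈ (0, 1]`, all bounded uniformly continuous functions `Φ` of `k` variables and all `L` the
mean value of `Φ (π(x, x^θ_l) log x / x^θ_l)_l` over the points `x = α n ^ c` exists and is equal
to `L` if and only if the mean value over all integers `x` exists and is equal to `L`. -/
theorem result : ∀ c : ℝ, 1 < c → ∃ E : Set ℝ, dimH E < 1 ∧ ∀ α : ℝ, 0 < α → α ∉ E →
    ∀ (k : ℕ) (θ : Fin k → ℝ), (∀ l, 0 < θ l ∧ θ l ≤ 1) →
      ∀ Φ : (Fin k → ℝ) → ℝ, UniformContinuous Φ → (∃ B : ℝ, ∀ z, |Φ z| ≤ B) → ∀ L : ℝ,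
        (Tendsto (fun N : ℕ => (∑ n ∈ Finset.Icc 1 N,
            Φ (fun l => density (α * (n : ℝ) ^ c) ((α * (n : ℝ) ^ c) ^ (θ l)))) / N) atTop (𝓝 L) ↔
          Tendsto (fun M : ℕ => (∑ m ∈ Finset.Icc 1 M,
            Φ (fun l => density (m : ℝ) ((m : ℝ) ^ (θ l)))) / M) atTop (𝓝 L)) := by
  intro c hc
  obtain ⟨E, hE, h⟩ := Pool.Agent.Y854.ST.samp_fin c hc
  refine ⟨E, hE, fun α hα hαE k θ hθ Φ hΦ hB L => ?_⟩
  obtain ⟨κ, hκ, hS⟩ := h α hα hαE
  obtain ⟨B, hB⟩ := hB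
  exact Pool.Agent.Y854.ST.equiv hα hc hκ (hS k) hΦ hB hθ L

end Pool.Agent.Results.MP_31d0eb_nt.StatisticsAlongMonomials
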