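import Pool.Agent.Y851.PU.Q6

/-!
# The asymptotic formula for all lengths at once, at dilates of an arbitrary dense set

Let `θ > 0` be arbitrarily small and let `A` be an arbitrary set of integers in `[β X ^ θ, X ^ θ]` which contains a positive
proportion of the integers, or of the primes, of this interval. Then for every real `y` in `(0, X ^ (1 - θ)]` outside at most
`δ X / log X` intervals of length `log X / X ^ θ` the following holds for ALL lengths `H` with `λ log X ≤ H ≤ X ^ (1 - ρ)`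
simultaneously: the intervals `(x - H, x)`, `x = a y`, contain `(1 + O(δ)) H / log x` primes on average over `a ∈ A`, and a
positive proportion of them contains at least `(1 - δ) H / log x` primes. Moreover, boundedly many dilations suffice: for all
but `δ |A| ^ n` of the `n`-tuples of elements of `A` the asymptotic formula holds on average over the `n` intervals
`(a_j y - H, a_j y)`, for all these lengths `H` at once and for all real `y` outside at most `δ X / log X` intervals of length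
`log X / X ^ θ`; here `n ≥ n₀` is independent of `X`.
-/

set_option autoImplicit false

namespace Pool.Agent.Results.MP_31d0eb_nt.WindowsAtDilates

open Finset

/-- the number of primes in the open interval `(x - H, x)`, divided by its expected value `H / log x` -/
noncomputable def density (H x : ℝ) : ℝ :=
  (Set.ncard {p : ℕ | p.Prime ∧ x - H < p ∧ (p : ℝ) < x} : ℝ) * Real.log x / H

open Classical in
theorem result (θ lam ρ β δ : ℝ) (hθ : 0 < θ) (hlam : 0 < lam) (hρ : 0 < ρ) (hβ : 0 < β) (hδ : 0 < δ) :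
    ∃ (n₀ : ℕ) (κ : ℝ), 0 < κ ∧ ∀ n : ℕ, n₀ ≤ n → ∃ X₀ : ℝ, ∀ X : ℝ, X₀ ≤ X →
    ∀ A : Finset ℕ, (∀ a ∈ A, β * X ^ θ ≤ (a : ℝ) ∧ (a : ℝ) ≤ X ^ θ) →
      (δ * X ^ θ ≤ A.card ∨ ((∀ a ∈ A, a.Prime) ∧ δ * (X ^ θ / Real.log X) ≤ A.card)) →
      -- the average over the whole set, for all lengths at once
      (∃ U : Finset ℝ, (U.card : ℝ) ≤ δ * (X / Real.log X) ∧ ∀ y : ℝ, 0 < y → y ≤ X ^ (1 - θ) →
        (∀ u ∈ U, ¬ (u ≤ y ∧ y ≤ u + Real.log X / X ^ θ)) →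
        ∀ H : ℝ, lam * Real.log X ≤ H → H ≤ X ^ (1 - ρ) →
          |∑ a ∈ A, density H (a * y) - A.card| ≤ δ * A.card ∧
          κ * A.card ≤ ((A.filter (fun a : ℕ => 1 - δ ≤ density H (a * y))).card : ℝ)) ∧
      -- the average over almost every `n`-tuple, for all lengths at once
      (((Fintype.piFinset (fun _ : Fin n => A)).filter (fun a => ¬ ∃ U : Finset ℝ, (U.card : ℝ) ≤ δ * (X / Real.log X) ∧
        ∀ y : ℝ, 0 < y → y ≤ X ^ (1 - θ) → (∀ u ∈ U, ¬ (u ≤ y ∧ y ≤ u + Real.log X / X ^ θ)) →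
        ∀ H : ℝ, lam * Real.log X ≤ H → H ≤ X ^ (1 - ρ) →
          |∑ j, density H (a j * y) - n| ≤ δ * n)).card : ℝ) ≤ δ * (A.card : ℝ) ^ n := by
  have hden : ∀ H x : ℝ, density H x = Pool.Agent.Y851.PT.ZH H x := fun H x => (Pool.Agent.Y851.PT.ZH_eq H x).symm
  simp_rw [hden]
  obtain ⟨δ₁, hδ₁⟩ : ∃ δ₁, δ₁ = min δ 1 := ⟨_, rfl⟩
  have hδ₁0 : 0 < δ₁ := by rw [hδ₁]; exact lt_min hδ one_pos
  have hδ₁1 : δ₁ ≤ δ := by rw [hδ₁]; exact min_le_left _ _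
  have hδ₁2 : δ₁ ≤ 1 := by rw [hδ₁]; exact min_le_right _ _
  obtain ⟨β₁, hβ₁⟩ : ∃ β₁, β₁ = min β 1 := ⟨_, rfl⟩
  have hβ₁0 : 0 < β₁ := by rw [hβ₁]; exact lt_min hβ one_pos
  have hβ₁1 : β₁ ≤ β := by rw [hβ₁]; exact min_le_left _ _
  have hβ₁2 : β₁ ≤ 1 := by rw [hβ₁]; exact min_le_right _ _
  obtain ⟨ρ₁, hρ₁⟩ : ∃ ρ₁, ρ₁ = min ρ 1 := ⟨_, rfl⟩
  have hρ₁0 : 0 < ρ₁ := by rw [hρ₁]; exact lt_min hρ one_pos
  have hρ₁1 : ρ₁ ≤ ρ := by rw [hρ₁]; exact min_le_left _ _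
  have hρ₁2 : ρ₁ ≤ 1 := by rw [hρ₁]; exact min_le_right _ _
  obtain ⟨κ, hκ, hA⟩ := Pool.Agent.Y851.PU.unifA θ lam ρ₁ β₁ δ₁ hθ hlam hρ₁0 hρ₁2 hβ₁0 hβ₁2 hδ₁0 hδ₁2
  obtain ⟨n₀, hn₀, hB⟩ := Pool.Agent.Y851.PU.unifB θ lam ρ₁ β₁ δ₁ hθ hlam hρ₁0 hρ₁2 hβ₁0 hβ₁2 hδ₁0 hδ₁2
  refine ⟨n₀, κ, hκ, fun n hn => ?_⟩
  obtain ⟨X₀, hX₀⟩ := Filter.eventually_atTop.1 ((hA.and (hB n hn)).and ((Filter.eventually_gt_atTop 1).and
    (((tendsto_rpow_atTop hθ).const_mul_atTop hβ).eventually_ge_atTop 1)))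
  refine ⟨X₀, fun X hX A hA1 hA2 => ?_⟩
  obtain ⟨⟨h1, h2⟩, h3, h4⟩ := hX₀ X hX
  have hX0 : 0 < X := by linarith only [h3]
  have hlog : 0 < Real.log X := Real.log_pos h3
  have hXθ : 0 < X ^ θ := by positivity
  have hXH : 0 ≤ X / Real.log X := (div_pos hX0 hlog).le
  have hρX : X ^ (1 - ρ) ≤ X ^ (1 - ρ₁) := Real.rpow_le_rpow_of_exponent_le h3.le (by linarith only [hρ₁1])
  have hadm : Pool.Agent.Y851.PS.Adm δ₁ θ X A := by
    refine ⟨fun a ha => ⟨?_, (hA1 a ha).2⟩, ?_⟩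
    · have : (1 : ℝ) ≤ a := h4.trans (hA1 a ha).1
      exact_mod_cast this
    · rcases hA2 with g | ⟨g1, g2⟩
      · exact Or.inl ((mul_le_mul_of_nonneg_right hδ₁1 hXθ.le).trans g)
      · exact Or.inr ⟨g1, (mul_le_mul_of_nonneg_right hδ₁1 (div_nonneg hXθ.le hlog.le)).trans g2⟩
  have hβA : ∀ a ∈ A, β₁ * X ^ θ ≤ (a : ℝ) := fun a ha => (mul_le_mul_of_nonneg_right hβ₁1 hXθ.le).trans (hA1 a ha).1
  obtain ⟨U, hU1, hU2⟩ := h1 A hadm hβA
  refine ⟨⟨U, hU1.trans (mul_le_mul_of_nonneg_right hδ₁1 hXH), fun y hy0 hy1 hyU H hH1 hH2 => ?_⟩, ?_⟩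
  · obtain ⟨g1, g2⟩ := hU2 y hy0 hy1 hyU H hH1 (hH2.trans hρX)
    refine ⟨g1.trans (mul_le_mul_of_nonneg_right hδ₁1 (Nat.cast_nonneg _)), g2.trans ?_⟩
    apply Nat.cast_le.2
    apply card_le_card
    intro a ha
    rw [mem_filter] at ha ⊢
    exact ⟨ha.1, by linarith only [ha.2, hδ₁1]⟩
  · refine le_trans ?_ ((h2 A hadm hβA).trans (mul_le_mul_of_nonneg_right hδ₁1 (pow_nonneg (Nat.cast_nonneg _) n)))
    apply Nat.cast_le.2
    apply card_le_card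
    intro a ha
    rw [mem_filter] at ha ⊢
    refine ⟨ha.1, fun hcon => ha.2 ?_⟩
    obtain ⟨U, hU1, hU2⟩ := hcon
    refine ⟨U, hU1.trans (mul_le_mul_of_nonneg_right hδ₁1 hXH), fun y hy0 hy1 hyU H hH1 hH2 => ?_⟩
    exact (hU2 y hy0 hy1 hyU H hH1 (hH2.trans hρX)).trans (mul_le_mul_of_nonneg_right hδ₁1 (Nat.cast_nonneg _))

end Pool.Agent.Results.MP_31d0eb_nt.WindowsAtDilates
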